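import Pool.Agent.Run7.h469.TR.P2ad15a

/-!
# The elliptic Schanuel bound in bounded degree along Euclid's algorithm

Let `E` be the elliptic curve `y² = 4 x³ - g₂ x - g₃` with rational `g₂`, `g₃`, `Λ` its lattice and `θ_1, …, θ_r` distinct natural
numbers. We call a tuple `(t_1, …, t_k)` of integers good if for all elliptic logarithms `l_{ij}` of the points with the
abscissas `t_i + θ_j`, for all `n` and all `p_1, …, p_n` in the group `Γ = Λ + ∑ ℤ l_{ij}` which are linearly independent over
`ℤ` modulo `Λ`, every polynomial relation of degree at most `δ`, over a number field of degree at most `δ`, between the constants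
`w_1, …, w_q` and the `4 n` numbers `p_i`, `ζ(p_i)`, `℘(p_i)`, `℘'(p_i)` is an identity in the `2 n` numbers `p_i`, `ζ(p_i)`.

The subtractive Euclidean algorithm replaces a pair `(a, b)` of positive integers by `(a, b - a)` or `(a - b, b)`. Let `k = 2`.
We prove that for all pairs `(a, b)` in `[1, X]^2` with at most `C (δ + 2)^C X^2 H^(-η)` exceptions, for ALL pairs `(u, v)` with
`max(u, v) ≥ H` of the algorithm of `(a, b)` ALL pairs `t = M (u, v) + b` of nonzero integers are good, where `M` is an integral
`2 × 2` matrix with `det M ≠ 0`, `b` an integral vector and the entries of `M` and `b` are at most `max(u, v)^η`, `η = 1 / (δ + 2)^C`. The number `C` depends only on the curve, `r`, `θ` and `q`. The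
bound for the number of the exceptions is small for large `H`, uniformly in `X`.

The starting theorem `GrowingDegreeSubgroups` of this problem bounds the number of pairs of integers up to `U` which are not good by
`C U^(2 - 1 / (δ + 2)^C)`. For the
algorithm a pair `(u, v)` counts with the number of the pairs in `[1, X]^2` above it in the tree, at most `6 X^2 / (u v)`; a pair
with a small coordinate `v` counts too much, and so the chains `(u, v), (u - v, v), …` with a small `v` are treated as a whole.
-/

set_option autoImplicit false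

namespace Pool.Agent.Results.MP_2ad15a_nt.EuclideanAlgorithm

open Finset MeasureTheory
open Run7.h469.Ab (euclidExceptions)
open Run7.h469.Vp (Combinations)
open Run7.h469.TR.P2ad15a (few)
open Pool.Agent.Results.MP_2ad15a_nt.MultiplicativeValues (Good)

/-- **The elliptic Schanuel bound in bounded degree along Euclid's algorithm.** Let `Λ` be a lattice with rational invariants and `θ_j` distinct natural numbers. There is `C` such that for all `δ`, all `w` in `ℂ^q` and all `X` and
`H ≥ 1`, `η = 1 / (δ + 2)^C`: for all but `C (δ + 2)^C X^2 H^(-η)` of the pairs `(a, b)` in `[1, X]^2`, for all pairs `(u, v)` with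
`max(u, v) ≥ H` of the subtractive Euclidean algorithm of `(a, b)`, all pairs `M (u, v) + b` of nonzero integers, `det M ≠ 0`, with
entries of `M` and `b` at most `max(u, v)^η` are good. -/
theorem result (Λ : PeriodPair) (a b : ℚ) (ha : Λ.g₂ = a) (hb : Λ.g₃ = b) (r q : ℕ) (θ : Fin r → ℕ)
    (hθ : Function.Injective θ) : ∃ C : ℕ, ∀ (δ : ℕ) (w : Fin q → ℂ) (X H : ℕ), 1 ≤ H →
    ((euclidExceptions (Combinations (1 / ((δ : ℝ) + 2) ^ C) (fun t => Good Λ δ θ w fun i => (t i : ℂ))) X H).card : ℝ) ≤
      C * ((δ : ℝ) + 2) ^ C * (X : ℝ) ^ 2 * (H : ℝ) ^ (-(1 / ((δ : ℝ) + 2) ^ C)) := by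
  obtain ⟨C₀, h⟩ := few Λ a b ha hb 2 r q θ hθ
  obtain ⟨C, hC⟩ := Run7.h469.Vp.euclid_eff C₀
  refine ⟨C, fun δ w => hC δ _ ?_⟩
  have h1 := h δ w
  rw [Nat.cast_ofNat] at h1
  exact h1

end Pool.Agent.Results.MP_2ad15a_nt.EuclideanAlgorithm
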