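import Pool.Agent.Run7.h469.TR.P2ad15a

/-!
# The elliptic Schanuel bound in bounded degree in the Farey intervals around a real number

Let `E` be the elliptic curve `y² = 4 x³ - g₂ x - g₃` with rational `g₂`, `g₃`, `Λ` its lattice and `θ_1, …, θ_r` distinct natural
numbers. We call a tuple `(t_1, …, t_k)` of integers good if for all elliptic logarithms `l_{ij}` of the points with the
abscissas `t_i + θ_j`, for all `n` and all `p_1, …, p_n` in the group `Γ = Λ + ∑ ℤ l_{ij}` which are linearly independent over
`ℤ` modulo `Λ`, every polynomial relation of degree at most `δ`, over a number field of degree at most `δ`, between the constants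
`w_1, …, w_q` and the `4 n` numbers `p_i`, `ζ(p_i)`, `℘(p_i)`, `℘'(p_i)` is an identity in the `2 n` numbers `p_i`, `ζ(p_i)`.

Let `k = 2`. We prove that for all real `α > 0` outside a set of Hausdorff dimension at most `1 - η`, and for almost all `α` with respect to
every measure of larger dimension, ALL but finitely many Farey intervals `[q / s, p / r]`, `p s - q r = 1`, around `α` have the
following property: for `(u, v)` one of the four pairs `(p, q)`, `(r, s)`, `(p, r)`, `(q, s)` ALL pairs `t = M (u, v) + b` of
nonzero integers are good, where `M` is an integral `2 × 2` matrix with `det M ≠ 0`, `b` an integral vector and the entries of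
`M` and `b` are at most `max(u, v)^η`, `η = 1 / (δ + 2)^C`. The number `C` depends only on the curve, `r`, `θ` and `q`. For almost all real `α` this is true for ALL degrees `δ` at the same time. The Farey intervals around `α` are those on the path to `α` in the
Stern-Brocot tree.

The starting theorem `GrowingDegreeSubgroups` of this problem bounds the number of pairs of integers up to `U` which are not good by
`C U^(2 - 1 / (δ + 2)^C)`. The starting theorem about approximations of this problem treats integer vectors for which a linear form is near an integer. A Farey interval around `α` can be much longer than `1 / r^2`, and `r / s` is not near a number determined by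
`α`. The chains of intervals with a common end are treated as a whole.
-/

set_option autoImplicit false

namespace Pool.Agent.Results.MP_2ad15a_nt.FareyIntervals

open Finset MeasureTheory
open Run7.h469.Ab (badIntervals)
open Run7.h469.Vp (Combinations)
open Run7.h469.TR.P2ad15a (few)
open Pool.Agent.Results.MP_2ad15a_nt.MultiplicativeValues (Good)

/-- **The elliptic Schanuel bound in bounded degree in Farey intervals.** Let `Λ` be a lattice with rational invariants and `θ_j` distinct natural numbers. There is `C` such that (1) for all `δ` and all `w` in `ℂ^q`,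
`η = 1 / (δ + 2)^C`, for all `α > 0` outside a set of Hausdorff dimension at most `1 - η`, and for almost all `α > 0` for all measures
of a dimension `m > 1 - η`, there are only finitely many `q / s ≤ α ≤ p / r`, `p s - q r = 1`, such that for one of the pairs
`(u, v) = (p, q)`, `(r, s)`, `(p, r)`, `(q, s)` some pair `M (u, v) + b` of nonzero integers, `det M ≠ 0`, with entries of `M` and
`b` at most `max(u, v)^η`, is not good; (2) for all `w`, for almost all `α > 0`, this is true for ALL `δ`. -/
theorem result (Λ : PeriodPair) (a b : ℚ) (ha : Λ.g₂ = a) (hb : Λ.g₃ = b) (r q : ℕ) (θ : Fin r → ℕ)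
    (hθ : Function.Injective θ) : ∃ C : ℕ,
    (∀ (δ : ℕ) (w : Fin q → ℂ),
      (∃ E : Set ℝ, dimH E ≤ ENNReal.ofReal (1 - 1 / ((δ : ℝ) + 2) ^ C) ∧
        ∀ α : ℝ, 0 < α → α ∉ E → (badIntervals (Combinations (1 / ((δ : ℝ) + 2) ^ C) (fun t => Good Λ δ θ w fun i => (t i : ℂ))) α).Finite) ∧
      ∀ (μ : Measure ℝ) (C₁ m : ℝ), 1 - 1 / ((δ : ℝ) + 2) ^ C < m →
        (∀ (x ρ : ℝ), 0 < ρ → μ (Metric.closedBall x ρ) ≤ ENNReal.ofReal (C₁ * ρ ^ m)) →
        ∀ᵐ α ∂μ, 0 < α → (badIntervals (Combinations (1 / ((δ : ℝ) + 2) ^ C) (fun t => Good Λ δ θ w fun i => (t i : ℂ))) α).Finite) ∧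
    ∀ w : Fin q → ℂ, ∀ᵐ α : ℝ, ∀ δ : ℕ,
      0 < α → (badIntervals (Combinations (1 / ((δ : ℝ) + 2) ^ C) (fun t => Good Λ δ θ w fun i => (t i : ℂ))) α).Finite := by
  obtain ⟨C₀, h⟩ := few Λ a b ha hb 2 r q θ hθ
  obtain ⟨C, hC⟩ := Run7.h469.Vp.farey_eff C₀
  have key : ∀ (δ : ℕ) (w : Fin q → ℂ),
      (∃ E : Set ℝ, dimH E ≤ ENNReal.ofReal (1 - 1 / ((δ : ℝ) + 2) ^ C) ∧
        ∀ α : ℝ, 0 < α → α ∉ E → (badIntervals (Combinations (1 / ((δ : ℝ) + 2) ^ C) (fun t => Good Λ δ θ w fun i => (t i : ℂ))) α).Finite) ∧
      ∀ (μ : Measure ℝ) (C₁ m : ℝ), 1 - 1 / ((δ : ℝ) + 2) ^ C < m →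
        (∀ (x ρ : ℝ), 0 < ρ → μ (Metric.closedBall x ρ) ≤ ENNReal.ofReal (C₁ * ρ ^ m)) →
        ∀ᵐ α ∂μ, 0 < α → (badIntervals (Combinations (1 / ((δ : ℝ) + 2) ^ C) (fun t => Good Λ δ θ w fun i => (t i : ℂ))) α).Finite := by
    intro δ w
    refine hC δ _ ?_
    have h1 := h δ w
    rw [Nat.cast_ofNat] at h1
    exact h1
  refine ⟨C, key, fun w => ?_⟩
  rw [ae_all_iff]
  intro δ
  have hpos := Run7.h469.Vp.sav_pos C δ
  unfold Run7.h469.Vp.sav at hpos
  exact Run7.h469.Vp.ae_of (by linarith) (key δ w).2

end Pool.Agent.Results.MP_2ad15a_nt.FareyIntervals
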