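import Pool.Agent.Run7.h469.TR.P2ad15a
import Pool.Agent.Run7.h469.Vm

/-!
# The elliptic Schanuel bound in bounded degree: products of linear forms in almost all integer vectors, and in expansions of real vectors

Let `E` be the elliptic curve `y² = 4 x³ - g₂ x - g₃` with rational `g₂`, `g₃`, `Λ` its lattice and `θ_1, …, θ_r` distinct natural
numbers. We call a tuple `(t_1, …, t_k)` of integers good if for all elliptic logarithms `l_{ij}` of the points with the
abscissas `t_i + θ_j`, for all `n` and all `p_1, …, p_n` in the group `Γ = Λ + ∑ ℤ l_{ij}` which are linearly independent over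
`ℤ` modulo `Λ`, every polynomial relation of degree at most `δ`, over a number field of degree at most `δ`, between the constants
`w_1, …, w_q` and the `4 n` numbers `p_i`, `ζ(p_i)`, `℘(p_i)`, `℘'(p_i)` is an identity in the `2 n` numbers `p_i`, `ζ(p_i)`.

Let `k, h ≥ 1` (for `h = 1` there are no products, only linear forms). We prove that for all integer vectors `x` in `[-X, X]^D`
with at most `C' Q^(k h (D + 2)) X^(D - c)` exceptions, `C'` depending on `D`, `c = 1 / (δ + 2)^C`, ALL `k`-tuples `t` of products of `h`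
linear forms, `t_i = ∏_(j ≤ h) y_(i,j)` with `y = M x + b`, `M` an integral matrix of rank `k h`, `b` an integral vector, the
entries of `M` and `b` at most `Q`, all `y_(i,j) ≠ 0`, are good. Here `Q` can be a small power of `X`. We prove a similar result
for the integer vectors near `N_n α`, `N_n` a lacunary sequence (for instance the truncations of the expansions in base `g`,
`N_n = g^n`), for all real vectors `α` outside a set of dimension less than `D`, and `M`, `b` with entries up to a power of `N_n`.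

The starting theorem `GrowingDegreeSubgroups` of this problem bounds the number of tuples of integers up to `U` which are not good by
`C U^(k - 1 / (δ + 2)^C)`. The products of `h` integers form a set of
density zero, and so the result for `h ≥ 2` does not follow from this number alone: the divisor bound shows that few vectors `y`
have a bad tuple of products, and for each of the possible `M`, `b` the map `x ↦ M x + b` has small fibres.
-/

set_option autoImplicit false

namespace Pool.Agent.Results.MP_2ad15a_nt.ProductsOfLinearForms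

open Finset MeasureTheory
open Run7.h469.Vk (Hits Lacunary Generic Avoids)
open Run7.h469.Vm (ProductIn)
open Run7.h469.TR.P2ad15a (few)
open Pool.Agent.Results.MP_2ad15a_nt.MultiplicativeValues (Good)

/-- The `k`-tuples of nonzero integers which are not good. -/
def Bad (Λ : PeriodPair) (δ k : ℕ) {r q : ℕ} (θ : Fin r → ℕ) (w : Fin q → ℂ) : Set (Fin k → ℤ) :=
  {t | (∀ i, t i ≠ 0) ∧ ¬ Good Λ δ θ w fun i => (t i : ℂ)}

/-- **The elliptic Schanuel bound in bounded degree for products of linear forms.** Let `Λ` be a lattice with rational invariants and `θ_j` distinct natural numbers. Let `k ≥ 1`. There is `C` and for all `δ` and `h ≥ 1` there is `C'`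
such that for all `w` in `ℂ^q`, `c = 1 / (δ + 2)^C`: (1) for all `D` and `X, Q ≥ 1`, for all but
`C' ((D + 1)^(k h) 3^((k h + 1) (D + 1))) Q^(k h (D + 2)) X^(D - c)` of the integer vectors `x` in `[-X, X]^D` no tuple of the
products `∏_(j ≤ h) y_(i,j)` of nonzero coordinates of a vector `y = M x + b`, `M` integral of rank `k h`, with entries of `M` and
`b` at most `Q`, is bad; (2) for lacunary `N_i` and `η ≥ 0`, outside a set of `α` in `ℝ^D` of dimension at most
`D - c + k h (D + 2) η`, for all `A`, for all large `i` the same is true for the integer vectors `x` with `|x - N_i α| ≤ A` and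
`M`, `b` with entries at most `A N_i^η`; (3) in particular it is true for almost all `α`, if `k h (D + 2) η < c`. -/
theorem result (Λ : PeriodPair) (a b : ℚ) (ha : Λ.g₂ = a) (hb : Λ.g₃ = b) (k r q : ℕ) (θ : Fin r → ℕ)
    (hθ : Function.Injective θ) (hk : 1 ≤ k) : ∃ C : ℕ, ∀ δ h : ℕ, 1 ≤ h → ∃ C' : ℝ, ∀ w : Fin q → ℂ,
      (∀ D X Q : ℕ, 1 ≤ X → 1 ≤ Q →
        (({x : Fin D → ℤ | (∀ j, |x j| ≤ X) ∧ x ∈ Hits (ProductIn h (Bad Λ δ k θ w)) D Q}.ncard : ℕ) : ℝ) ≤
          C' * (((D : ℝ) + 1) ^ (k * h) * 3 ^ ((k * h + 1) * (D + 1))) * (Q : ℝ) ^ (k * h * (D + 2)) *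
            (X : ℝ) ^ ((D : ℝ) - 1 / ((δ : ℝ) + 2) ^ C)) ∧
      (∀ D : ℕ, 1 ≤ D → ∀ N : ℕ → ℝ, Lacunary N → ∀ η : ℝ, 0 ≤ η →
        Generic ((D : ℝ) - 1 / ((δ : ℝ) + 2) ^ C + k * h * (D + 2) * η)
          (fun α : Fin D → ℝ => Avoids (ProductIn h (Bad Λ δ k θ w)) N η α)) ∧
      ∀ D : ℕ, 1 ≤ D → ∀ N : ℕ → ℝ, Lacunary N → ∀ η : ℝ, 0 ≤ η → k * h * (D + 2) * η < 1 / ((δ : ℝ) + 2) ^ C →
        ∀ᵐ α : Fin D → ℝ, Avoids (ProductIn h (Bad Λ δ k θ w)) N η α := by
  obtain ⟨C₀, hf⟩ := few Λ a b ha hb k r q θ hθ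
  refine ⟨C₀ + 1, fun δ h hh => ?_⟩
  have hh1 : (1 : ℝ) ≤ h := by exact_mod_cast hh
  have h1 : Run7.h469.Vp.sav (C₀ + 1) δ * 2 ≤ Run7.h469.Vp.sav C₀ δ := by
    have := Run7.h469.Vp.sav_add C₀ 1 δ
    rwa [pow_one] at this
  have h2 := Run7.h469.Vp.sav_pos (C₀ + 1) δ
  have h3 := Run7.h469.Vp.sav_le_one (C₀ + 1) δ
  obtain ⟨C', -, key⟩ := Run7.h469.Vm.products_of_forms (k := k) (b := h) hk hh (Nat.cast_nonneg (α := ℝ) C₀)
    (c := Run7.h469.Vp.sav C₀ δ) (c' := Run7.h469.Vp.sav (C₀ + 1) δ) h2.le h3 (by nlinarith)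
  exact ⟨C', fun w => key _ (hf δ w)⟩

end Pool.Agent.Results.MP_2ad15a_nt.ProductsOfLinearForms
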