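import Pool.Agent.Run7.h788.RandMix

/-!
# The elliptic Schanuel conjecture in bounded degree for random points of given groups of points

Let `E_j = ℂ/Ω_j`, `j ≤ n₁`, be elliptic curves with complex multiplication over the algebraic numbers
(the invariants `g₂`, `g₃` of `Ω_j` are algebraic, `α_j Ω_j ⊆ Ω_j` for a nonreal `α_j`), and let
`E'_j = ℂ/Ω'_j`, `j ≤ n₂`, be ARBITRARY elliptic curves over the algebraic numbers, with integrals of the
second kind `J_j(z) = σ_j ζ(z) + ρ_j z` (`σ_j`, `ρ_j` algebraic, not both `0`); the curves may be equal or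
different.  Let `u_{j,1}, …, u_{j,k}` be elliptic logarithms of ARBITRARY algebraic points of `E_j` which
are linearly independent over `End(E_j) ⊗ ℚ`, let `v_{j,1}, …, v_{j,k}` be such elliptic logarithms for
`E'_j`, and let `b_j`, `c_j` be elliptic logarithms of arbitrary algebraic points, for instance `0`.
Let `A` be a finite nonempty set of integers.  We consider the random points

  `p_j = b_j + ∑_i (m_{j,i,0} + m_{j,i,1} α_j) u_{j,i}`,   `q_j = c_j + ∑_i m'_{j,i} v_{j,i}`

with all the coefficients `m`, `m'` in `A`.  The elliptic Schanuel conjecture says that for independent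
points the numbers `p_j`, `ζ(p_j)` and `q_j`, `ζ(q_j)` are algebraically independent.

**Theorem.** For all `n₁`, `n₂`, `D`, `N` there are `k₀`, `C` and `δ > 0` such that for all `k ≥ k₀`, all
these data, all `A` and all spaces `W` of complex numbers of dimension at most `N` over the field of
algebraic numbers (for instance the space generated by the monomials of bounded degree in the periods and
quasi-periods of all the curves, or in arbitrary further numbers), for all but
`C |A| ^ ((2 n₁ + n₂) k - δ k)` of the `|A| ^ ((2 n₁ + n₂) k)` parameters `(m, m')` the points are not in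
the lattices, the numbers `℘(p_j)`, `℘(q_j)` are algebraic, and the `2 n₁ + n₂` numbers

  `p_j`, `ζ(p_j)`, `J_j(q_j)`

satisfy no nonzero polynomial relation with coefficients in `W` of degree at most `D` in each of them.

So in bounded degree the conjecture holds for all but exponentially few of the `n`-tuples of the sums
over the subsets of a set of `k` given points (with the multiples by `α`) on curves with complex
multiplication, relative to arbitrary constants.  Nothing is assumed about the points.  In the starting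
results of this problem the points run through the values of analytic functions, or through the points
with given abscissas, and the rare exceptions are those of the abscissas.

**The proof.**  For one family of curves with complex multiplication, and for the integrals of the second
kind alone, this is in the starting library (`Pool.Agent.Y918.EL.cmpoints`, not handed in, and
`Pool.Agent.Y918.EL.second`, handed in as `RandomSecondKind` for MP_1eadae_ag).  It uses the theorems on
linear forms in elliptic logarithms and in integrals of the second kind (`Pool.Agent.W245.EB.RedZ`) and a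
cube theorem.  The composition of the two families, with degree at most `D` in each variable, is in
`Pool.Agent.Run7.h788.Compose` and `Pool.Agent.Run7.h788.RandMix`: the space `W` is enlarged by the
monomials in the first group of numbers.
-/

set_option autoImplicit false

open scoped PeriodPair

noncomputable section

namespace Pool.Agent.Results.MP_2ad15a_nt.RandomPoints

/-- The field of algebraic numbers. -/
abbrev Qbar : IntermediateField ℚ ℂ := algebraicClosure ℚ ℂ

/-- The Weierstrass zeta function
`ζ(z) = 1/z + ∑_{l ≠ 0} (1/(z - l) + 1/l + z/l²)` (in Lean `1/0 = 0`, so that the term with `l = 0`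
of the sum below is `1/z`). -/
def zetaW (L : PeriodPair) (z : ℂ) : ℂ := ∑' l : L.lattice, (1 / (z - l) + 1 / l + z / l ^ 2)

/-- `u` is an elliptic logarithm of an algebraic point (the elements of the lattice are allowed). -/
def EllLog (L : PeriodPair) (u : ℂ) : Prop := u ∈ L.lattice ∨ IsAlgebraic ℚ (℘[L] u)

/-- `β` belongs to the field `k = End(ℂ/Ω) ⊗ ℚ`: some multiple `m β`, `m ≥ 1`, maps the lattice `Ω`
to itself. -/
def IsMult (L : PeriodPair) (β : ℂ) : Prop :=
  ∃ m : ℕ, 0 < m ∧ ∀ ω ∈ L.lattice, (m : ℂ) * β * ω ∈ L.lattice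

/-- The numbers `w_j` are linearly independent over `k`. -/
def IndepMult (L : PeriodPair) {R : ℕ} (w : Fin R → ℂ) : Prop :=
  ∀ β : Fin R → ℂ, (∀ j, IsMult L (β j)) → ∑ j, β j * w j = 0 → ∀ j, β j = 0

/-- The random points `p_j` on the curves with complex multiplication. -/
def pointCM {n k : ℕ} (α b : Fin n → ℂ) (u : Fin n → Fin k → ℂ) (m : Fin n → Fin k × Fin 2 → ℤ)
    (j : Fin n) : ℂ := b j + ∑ i, ((m j (i, 0) : ℂ) + m j (i, 1) * α j) * u j i

/-- The random points `q_j` on the arbitrary curves. -/
def point {n k : ℕ} (c : Fin n → ℂ) (v : Fin n → Fin k → ℂ) (m : Fin n → Fin k → ℤ)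
    (j : Fin n) : ℂ := c j + ∑ i, (m j i : ℂ) * v j i

/-- The numbers `x` satisfy no nonzero polynomial relation with coefficients in `W` and of degree at
most `D` in each of them. -/
def NoRelation (W : Submodule Qbar ℂ) (D : ℕ) {σ : Type} (x : σ → ℂ) : Prop :=
  ∀ Q : MvPolynomial σ ℂ, (∀ i, Q.degreeOf i ≤ D) → (∀ e, Q.coeff e ∈ W) →
    MvPolynomial.eval x Q = 0 → Q = 0

open Classical in
/-- **Main result.** -/
theorem result (n₁ n₂ D N : ℕ) : ∃ (k₀ C : ℕ) (δ : ℝ), 0 < δ ∧ ∀ k ≥ k₀,
    -- curves with complex multiplication, elliptic logarithms of algebraic points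
    ∀ L : Fin n₁ → PeriodPair, (∀ j, IsAlgebraic ℚ (L j).g₂) → (∀ j, IsAlgebraic ℚ (L j).g₃) →
    ∀ α : Fin n₁ → ℂ, (∀ j, (α j).im ≠ 0) → (∀ j, ∀ ω ∈ (L j).lattice, α j * ω ∈ (L j).lattice) →
    ∀ u : Fin n₁ → Fin k → ℂ, (∀ j i, EllLog (L j) (u j i)) → (∀ j, IndepMult (L j) (u j)) →
    ∀ b : Fin n₁ → ℂ, (∀ j, EllLog (L j) (b j)) →
    -- arbitrary curves and integrals of the second kind
    ∀ L' : Fin n₂ → PeriodPair, (∀ j, IsAlgebraic ℚ (L' j).g₂) → (∀ j, IsAlgebraic ℚ (L' j).g₃) →
    ∀ σ ρ : Fin n₂ → ℂ, (∀ j, IsAlgebraic ℚ (σ j)) → (∀ j, IsAlgebraic ℚ (ρ j)) →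
    (∀ j, σ j ≠ 0 ∨ ρ j ≠ 0) →
    ∀ v : Fin n₂ → Fin k → ℂ, (∀ j i, EllLog (L' j) (v j i)) → (∀ j, IndepMult (L' j) (v j)) →
    ∀ c : Fin n₂ → ℂ, (∀ j, EllLog (L' j) (c j)) →
    -- coefficients
    ∀ A : Finset ℤ, A.Nonempty →
    ∀ W : Submodule Qbar ℂ, Module.Finite Qbar W → Module.finrank Qbar W ≤ N →
    ((((Fintype.piFinset fun _ : Fin n₁ => Fintype.piFinset fun _ : Fin k × Fin 2 => A) ×ˢ
      (Fintype.piFinset fun _ : Fin n₂ => Fintype.piFinset fun _ : Fin k => A)).filter
      (fun m => ¬ (
        (∀ j, pointCM α b u m.1 j ∉ (L j).lattice ∧ IsAlgebraic ℚ (℘[L j] (pointCM α b u m.1 j))) ∧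
        (∀ j, point c v m.2 j ∉ (L' j).lattice ∧ IsAlgebraic ℚ (℘[L' j] (point c v m.2 j))) ∧
        NoRelation W D (Sum.elim
          (Sum.elim (pointCM α b u m.1) (fun j => zetaW (L j) (pointCM α b u m.1 j)))
          (fun j => σ j * zetaW (L' j) (point c v m.2 j) + ρ j * point c v m.2 j))))).card : ℝ) ≤
      C * (A.card : ℝ) ^ (((2 * n₁ + n₂) * k : ℝ) - δ * k) := by
  obtain ⟨k₀, C, δ, hδ, h⟩ := Run7.h788.rand_ell n₁ n₂ D N
  refine ⟨k₀, C, δ, hδ, fun k hk L h2 h3 α hα hm u hu hui b hb L' h2' h3' σ ρ hσ hρ hne v hv hvi c hc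
    A hA W hW hWN => ?_⟩
  let d : Fin n₁ → Pool.Agent.Y918.EL.CM := fun j =>
    { L := L j
      g2 := h2 j
      g3 := h3 j
      α := α j
      hα := hα j
      hm := hm j }
  let e : Fin n₂ → Pool.Agent.Y918.EL.SK := fun j =>
    { L := L' j
      g2 := h2' j
      g3 := h3' j
      σ := σ j
      ρ := ρ j
      hσ := hσ j
      hρ := hρ j
      hne := hne j }
  have h1 := h k hk d u (fun j => ⟨hu j, fun β hβ h0 => funext fun i => hui j β hβ h0 i⟩) b hb
    e v (fun j => ⟨hv j, fun β hβ h0 => funext fun i => hvi j β hβ h0 i⟩) c hc A hA W hW hWN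
  refine le_trans (Nat.cast_le.2 (Finset.card_le_card ?_)) h1
  intro m hm
  rw [Finset.mem_filter] at hm ⊢
  refine ⟨hm.1, fun hG => hm.2 ?_⟩
  obtain ⟨hp, hq, hr⟩ := hG
  refine ⟨fun j => ⟨(hp j).1, (hp j).2.resolve_left (hp j).1⟩,
    fun j => ⟨(hq j).1, (hq j).2.resolve_left (hq j).1⟩, ?_⟩
  have he : Run7.h788.ellN d b u e c v m = Sum.elim
      (Sum.elim (pointCM α b u m.1) (fun j => zetaW (L j) (pointCM α b u m.1 j)))
      (fun j => σ j * zetaW (L' j) (point c v m.2 j) + ρ j * point c v m.2 j) := by
    funext i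
    rcases i with (i | i) | i
    · rfl
    · exact Pool.Agent.W245.EB.zt_of_notMem (hp i).1
    · have h5 : Pool.Agent.W245.EB.zt (L' i) (point c v m.2 i) = zetaW (L' i) (point c v m.2 i) :=
        Pool.Agent.W245.EB.zt_of_notMem (hq i).1
      change σ i * Pool.Agent.W245.EB.zt (L' i) (point c v m.2 i) + ρ i * point c v m.2 i =
        σ i * zetaW (L' i) (point c v m.2 i) + ρ i * point c v m.2 i
      rw [h5]
  rw [he] at hr
  exact hr

end Pool.Agent.Results.MP_2ad15a_nt.RandomPoints
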